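import Pool.Agent.P.MP_38c95b_ag.G.Cone3

open MvPolynomial
open scoped LinearAlgebra.Projectivization

namespace Pool.Agent.Results.MP_38c95b_ag.GenericOrbit

open Pool.Agent.P.MP_38c95b_ag

/-- The points of projective `N`-space over the field `K`. -/
abbrev PS (K : Type) [Field K] (N : ℕ) : Type := ℙ K (Fin (N + 1) → K)

variable {K : Type} [Field K]

/-- `Y` is Zariski closed: the common zero set of a family of forms. -/
def ZClosed {N : ℕ} (Y : Set (PS K N)) : Prop :=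
  ∃ S : Set (MvPolynomial (Fin (N + 1)) K),
    (∀ g ∈ S, ∃ d : ℕ, g.IsHomogeneous d) ∧ ∀ P : PS K N, P ∈ Y ↔ ∀ g ∈ S, eval P.rep g = 0

/-- `X` is irreducible: nonempty and not covered by two closed sets unless one covers it. -/
def ZIrred {N : ℕ} (X : Set (PS K N)) : Prop :=
  X.Nonempty ∧ ∀ Y Z : Set (PS K N), ZClosed Y → ZClosed Z → X ⊆ Y ∪ Z → X ⊆ Y ∨ X ⊆ Z

theorem rep_mk {N : ℕ} (x : Fin (N + 1) → K) (hx : x ≠ 0) :
    ∃ c : K, c ≠ 0 ∧
      (Projectivization.mk K x hx).rep = fun i => c * x i := by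
  obtain ⟨a, ha⟩ := Projectivization.exists_smul_eq_mk_rep K x hx
  exact ⟨a, a.ne_zero, ha.symm⟩

theorem eval_mk {N d : ℕ} {g : MvPolynomial (Fin (N + 1)) K}
    (hg : g.IsHomogeneous d) (x : Fin (N + 1) → K) (hx : x ≠ 0) :
    eval (Projectivization.mk K x hx).rep g = 0 ↔ eval x g = 0 := by
  obtain ⟨c, hc, h⟩ := rep_mk x hx
  rw [h, cone_eval_smul hg, mul_eq_zero, or_iff_right (pow_ne_zero _ hc)]

/-- Let `X` be an irreducible closed subvariety of projective space over an algebraically closed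
field of characteristic zero and `Φ : X → X` a map given by forms of degree `q ≥ 2` without common
zero on `X`. Then some point of `X` has an orbit that enters every closed set not containing `X`
only finitely many times. -/
theorem result (K : Type) [Field K] [IsAlgClosed K] [CharZero K] (N q : ℕ) (hq : 2 ≤ q)
    (X : Set (PS K N)) (hX : ZClosed X) (hirr : ZIrred X)
    (f : Fin (N + 1) → MvPolynomial (Fin (N + 1)) K)
    (hf : ∀ i, (f i).IsHomogeneous q) (Φ : X → X)
    (hΦ : ∀ P : X, ∃ h : (fun i => eval (P : PS K N).rep (f i)) ≠ 0,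
      (Φ P : PS K N) = Projectivization.mk K _ h) :
    ∃ α : X, ∀ Y : Set (PS K N), ZClosed Y → ¬ X ⊆ Y → {n : ℕ | (Φ^[n] α : PS K N) ∈ Y}.Finite := by
  obtain ⟨S, hS, hXS⟩ := hX
  obtain ⟨⟨P₁, hP₁⟩, hirr⟩ := hirr
  have hmk : ∀ (x : Fin (N + 1) → K) (hx : x ≠ 0),
      Projectivization.mk K x hx ∈ X ↔ ∀ g ∈ S, eval x g = 0 := fun x hx => by
    rw [hXS]
    exact forall₂_congr fun g hg => eval_mk (hS g hg).choose_spec x hx
  have hstep : ∀ (x : Fin (N + 1) → K) (hx : x ≠ 0) (P : X),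
      (P : PS K N) = Projectivization.mk K x hx →
      ∃ h : dyn f x ≠ 0, (Φ P : PS K N) = Projectivization.mk K _ h := by
    intro x hx P hP
    obtain ⟨h1, h2⟩ := hΦ P
    obtain ⟨c, hc, h⟩ := rep_mk x hx
    have h3 : (fun i => eval (P : PS K N).rep (f i)) = c ^ q • dyn f x := by
      funext i
      rw [hP, h, cone_eval_smul (hf i)]
      simp [dyn, aeval_eq_eval]
    have h4 : dyn f x ≠ 0 := fun h0 => h1 (by rw [h3, h0, smul_zero])
    exact ⟨h4, h2.trans ((Projectivization.mk_eq_mk_iff' _ _ _ h1 h4).2 ⟨c ^ q, h3.symm⟩)⟩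
  have hzero : ∀ {g : MvPolynomial (Fin (N + 1)) K} {d : ℕ},
      g.IsHomogeneous d → (∀ P ∈ X, eval P.rep g = 0) →
      ∀ x : Fin (N + 1) → K, (∀ g ∈ S, eval x g = 0) → eval x g = 0 := by
    intro g d hg h x hx
    rcases eq_or_ne x 0 with rfl | h0
    · have := cone_eval_smul hg 0 P₁.rep
      rw [h P₁ hP₁, mul_zero] at this
      simpa [Pi.zero_def] using this
    · exact (eval_mk hg x h0).1 (h _ ((hmk x h0).2 hx))
  have hS0 : ∀ g ∈ S, eval (0 : Fin (N + 1) → K) g = 0 := fun g hg => by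
    have := cone_eval_smul (hS g hg).choose_spec 0 P₁.rep
    rw [(hXS P₁).1 hP₁ g hg, mul_zero] at this
    simpa [Pi.zero_def] using this
  have hcl : ∀ {g : MvPolynomial (Fin (N + 1)) K} {d : ℕ},
      g.IsHomogeneous d → ZClosed {P : PS K N | eval P.rep g = 0} := fun {g d} hg =>
    ⟨{g}, by rintro _ rfl; exact ⟨d, hg⟩, by simp⟩
  obtain ⟨a, haC, ha0, hgen⟩ := G.gen_coneK hq f hf S hS {x | ∀ g ∈ S, eval x g = 0}
    (fun _ => Iff.rfl) P₁.rep_nonzero ((hXS P₁).1 hP₁)
    (fun g h dg dh hg hh H => (hirr _ _ (hcl hg) (hcl hh) fun P hP =>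
      mul_eq_zero.1 (H _ ((hXS P).1 hP))).imp (fun h1 => hzero hg h1) fun h1 => hzero hh h1)
    (fun x hx => by
      rcases eq_or_ne x 0 with rfl | h0
      · have h1 : dyn f (0 : Fin (N + 1) → K) = 0 := by
          funext j
          have := cone_eval_smul (hf j) 0 (0 : Fin (N + 1) → K)
          rw [zero_pow (by omega), zero_mul] at this
          simpa [dyn, Pi.zero_def] using this
        rw [h1]
        exact hS0
      · obtain ⟨h1, h2⟩ := hstep x h0 ⟨_, (hmk x h0).2 hx⟩ rfl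
        exact (hmk _ h1).1 (h2 ▸ (Φ _).2))
    (fun x hx h1 => by
      by_contra h0
      exact (hstep x h0 ⟨_, (hmk x h0).2 hx⟩ rfl).1 h1)
  refine ⟨⟨_, (hmk a ha0).2 haC⟩, fun Y ⟨T, hT, hY⟩ hXY => ?_⟩
  have horb : ∀ n, ∃ h : (dyn f)^[n] a ≠ 0, (Φ^[n] ⟨_, (hmk a ha0).2 haC⟩ : PS K N) =
      Projectivization.mk K _ h := fun n => by
    induction n with
    | zero => exact ⟨ha0, rfl⟩
    | succ n ih =>
      obtain ⟨h1, h2⟩ := ih
      simp only [Function.iterate_succ_apply']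
      exact hstep _ h1 _ h2
  by_contra hinf
  refine hXY fun P hP => (hY P).2 fun g hg =>
    hgen g (Set.Infinite.mono (fun n hn => ?_) hinf) _ ((hXS P).1 hP)
  obtain ⟨h1, h2⟩ := horb n
  have h3 := (hY _).1 hn g hg
  rw [h2] at h3
  exact (eval_mk (hT g hg).choose_spec _ h1).1 h3

end Pool.Agent.Results.MP_38c95b_ag.GenericOrbit
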